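import Pool.Agent.Q227.PSy.Pol
import Pool.Agent.Q227.NoDec
import Pool.Agent.H673R2.HardOn

/-!
# Deciding whether a consistent path system has a reduction is NP-hard

The reduction is from 3-satisfiability. All paths of the constructed systems have at most two
edges; the path joining two non-adjacent vertices `u`, `v` through `w` expresses the constraint:
if `u` and `v` have the same colour, then `w` has it as well.
-/

set_option autoImplicit false

namespace Pool.Agent.Results.MP_a08d7f_lc.ReducibilityNPHard

open Pool.Agent.NPC Pool.Agent.H673R2 Pool.Agent.H679R2 Pool.Agent.Q227.TF Pool.Agent.Q227.PSy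

/-- The problem: does the given consistent path system have a reduction? -/
def Reducible (I : Inst) : Prop := HasReduction (paths I)

/-- Deciding whether a consistent path system has a reduction is `NP`-hard: every language in
`NP` has a polynomial-time many-one reduction to it, all of whose instances are graphs with a
consistent path system. Hence, if `P ≠ NP`, no polynomial-time algorithm decides irreducibility
of consistent path systems. -/
theorem result : NPHardOn Valid Reducible ∧
    (PneNP → ¬ ∃ A : List Bool → List Bool, PolyTime A ∧ ∀ I : Inst, Valid I →
      (Irreducible (paths I) → A (bits I) = [true]) ∧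
      (¬ Irreducible (paths I) → A (bits I) = [false])) := by
  have h : NPHardOn Valid Reducible :=
    npHardOn_of hardPr_SAT3b (f := red) red_poly (fun φ hφ => valid_inst (nice hφ.2.2))
      fun φ hφ => red_iff hφ.1 hφ.2.2
  refine ⟨h, fun hne => Pool.Agent.Q227.no_decider_co (Pr := Valid)
    (P := fun I => Irreducible (paths I)) ?_ hne⟩
  intro L hL
  obtain ⟨f, hf, hpr, hfL⟩ := h L hL
  refine ⟨f, hf, hpr, fun x => (hfL x).trans ?_⟩
  exact (not_not (a := HasReduction (paths (f x)))).symm

end Pool.Agent.Results.MP_a08d7f_lc.ReducibilityNPHard
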